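import Pool.Agent.H93.SM.Iface
import Pool.Agent.H74.Tri.Peel

set_option autoImplicit false

/-! MP_2e6055, module SM: ECT, ECS (tip, exit and marks of a state). -/

namespace Pool.Agent.H93.SM

open Pool.Agent.H7.UC Pool.Agent.H74.Tri

/-- the boundary edges with outer face of colour `d`, as a finite set -/
noncomputable def cF (U : Finset Fc) (ω : Fc → Bool) (d : Bool) : Finset Ed := by
  classical
  exact Finset.filter
    (fun e => (lf e ∈ U ∧ rf e ∉ U ∧ ω (rf e) = d) ∨ (rf e ∈ U ∧ lf e ∉ U ∧ ω (lf e) = d))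
    (Finset.image (fun p : Vx × Fin 3 => ed p.1 p.2) (verts U ×ˢ (Finset.univ : Finset (Fin 3))))

theorem mem_cF {U : Finset Fc} {ω : Fc → Bool} {d : Bool} {e : Ed} : e ∈ cF U ω d ↔
    (lf e ∈ U ∧ rf e ∉ U ∧ ω (rf e) = d) ∨ (rf e ∈ U ∧ lf e ∉ U ∧ ω (lf e) = d) := by
  classical
  unfold cF
  rw [Finset.mem_filter]
  constructor
  · exact fun h => h.2
  · intro h
    refine ⟨?_, h⟩
    have hE : inE U e := h.elim (fun h => Or.inl h.1) (fun h => Or.inr h.1)
    have he := eq_ed e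
    rw [he] at hE
    have hv := (inV_of_inE hE).1
    rw [Finset.mem_image]
    exact ⟨((e.1, e.2.1, false), e.2.2),
      Finset.mem_product.2 ⟨mem_verts.2 hv, Finset.mem_univ _⟩, he.symm⟩

theorem ind_cF (U : Finset Fc) (ω : Fc → Bool) (d : Bool) (e : Ed) :
    ind (↑(cF U ω d) : Set Ed) e = cd U ω d e := by
  classical
  unfold cd
  by_cases h1 : lf e ∈ U ∧ rf e ∉ U ∧ ω (rf e) = d
  · have h2 : ¬ (rf e ∈ U ∧ lf e ∉ U ∧ ω (lf e) = d) := fun h => h1.2.1 h.1
    rw [if_pos h1, if_neg h2, add_zero]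
    exact ind_mem (by exact_mod_cast mem_cF.2 (Or.inl h1))
  · by_cases h2 : rf e ∈ U ∧ lf e ∉ U ∧ ω (lf e) = d
    · rw [if_neg h1, if_pos h2, zero_add]
      exact ind_mem (by exact_mod_cast mem_cF.2 (Or.inr h2))
    · rw [if_neg h1, if_neg h2, add_zero]
      refine ind_not ?_
      intro h
      have h' : e ∈ cF U ω d := by exact_mod_cast h
      rcases mem_cF.1 h' with h | h
      · exact h1 h
      · exact h2 h

theorem isB_cF {U : Finset Fc} {ω : Fc → Bool} {e : Ed} :
    isB U e ↔ e ∈ cF U ω false ∨ e ∈ cF U ω true := by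
  rw [mem_cF, mem_cF]
  unfold isB
  constructor
  · rintro (⟨h1, h2⟩ | ⟨h1, h2⟩)
    · cases h : ω (rf e)
      · exact Or.inl (Or.inl ⟨h1, h2, rfl⟩)
      · exact Or.inr (Or.inl ⟨h1, h2, rfl⟩)
    · cases h : ω (lf e)
      · exact Or.inl (Or.inr ⟨h2, h1, rfl⟩)
      · exact Or.inr (Or.inr ⟨h2, h1, rfl⟩)
  · rintro ((h | h) | (h | h))
    · exact Or.inl ⟨h.1, h.2.1⟩
    · exact Or.inr ⟨h.2.1, h.1⟩
    · exact Or.inl ⟨h.1, h.2.1⟩
    · exact Or.inr ⟨h.2.1, h.1⟩

/-- membership in terms of an outer face -/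
theorem cF_outer {U : Finset Fc} {ω : Fc → Bool} {d : Bool} {e : Ed} (he : isB U e) {f : Fc}
    (hf : f = lf e ∨ f = rf e) (hU : f ∉ U) : e ∈ cF U ω d ↔ ω f = d := by
  rw [mem_cF]
  rcases he with ⟨h1, h2⟩ | ⟨h1, h2⟩
  · have hf' : f = rf e := by
      rcases hf with h | h
      · exact absurd (h ▸ h1) hU
      · exact h
    subst hf'
    constructor
    · rintro (h | h)
      · exact h.2.2
      · exact absurd h.1 hU
    · intro h
      exact Or.inl ⟨h1, h2, h⟩
  · have hf' : f = lf e := by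
      rcases hf with h | h
      · exact h
      · exact absurd (h ▸ h2) hU
    subst hf'
    constructor
    · rintro (h | h)
      · exact absurd h.1 hU
      · exact h.2.2
    · intro h
      exact Or.inr ⟨h2, h1, h⟩

/-- the tip condition at a vertex -/
def tipV (U : Finset Fc) (ω : Fc → Bool) (v : Vx) (k : Fin 3) : Prop :=
  fc v k ∈ U ∧ fc v (k + 1) ∉ U ∧ fc v (k + 2) ∉ U ∧ ω (fc v (k + 1)) = true ∧
    ω (fc v (k + 2)) = false

/-- the exit condition at a vertex -/
def exV (U : Finset Fc) (ω : Fc → Bool) (v : Vx) (k : Fin 3) : Prop :=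
  fc v k ∈ U ∧ fc v (k + 1) ∉ U ∧ fc v (k + 2) ∉ U ∧ ω (fc v (k + 1)) = false ∧
    ω (fc v (k + 2)) = true

theorem isTip_iff (U : Finset Fc) (ω : Fc → Bool) (p : Pos) :
    IsTip U ω p ↔ tipV U ω p.1 p.2 := Iff.rfl

theorem isExit_iff (U : Finset Fc) (ω : Fc → Bool) (q : Pos) :
    IsExit U ω q ↔ exV U ω (nb q.1 q.2) q.2 := by
  obtain ⟨x, k⟩ := q
  show (fc (nb x k) k ∈ U ∧ fc x (k + 1) ∉ U ∧ fc x (k + 2) ∉ U ∧ (ω (fc x (k + 1)) = true ∧
    ω (fc x (k + 2)) = false)) ↔ (fc (nb x k) k ∈ U ∧ fc (nb x k) (k + 1) ∉ U ∧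
    fc (nb x k) (k + 2) ∉ U ∧ ω (fc (nb x k) (k + 1)) = false ∧ ω (fc (nb x k) (k + 2)) = true)
  rw [fc_nb1, fc_nb2]
  tauto

theorem exit_of {U : Finset Fc} {ω : Fc → Bool} {w : Vx} {k : Fin 3} (h : exV U ω w k) :
    IsExit U ω (nb w k, k) := by
  rw [isExit_iff]
  show exV U ω (nb (nb w k) k) k
  rw [nb_nb]
  exact h

theorem k_unique {U : Finset Fc} {v : Vx} {k k' : Fin 3} (h : fc v k ∈ U)
    (h1 : fc v (k' + 1) ∉ U) (h2 : fc v (k' + 2) ∉ U) : k = k' := by
  have : ∀ k k' : Fin 3, k = k' ∨ k = k' + 1 ∨ k = k' + 2 := by decide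
  rcases this k k' with h3 | h3 | h3
  · exact h3
  · exact absurd (h3 ▸ h) h1
  · exact absurd (h3 ▸ h) h2

theorem chg_cases {U : Finset Fc} {ω : Fc → Bool} {v : Vx} :
    chg U ω v ↔ (∃ k, tipV U ω v k) ∨ ∃ k, exV U ω v k := by
  constructor
  · rintro ⟨k, h1, h2, h3, h4⟩
    cases ha : ω (fc v (k + 1)) <;> cases hb : ω (fc v (k + 2))
    · rw [ha, hb] at h4; exact absurd rfl h4
    · exact Or.inr ⟨k, h1, h2, h3, ha, hb⟩
    · exact Or.inl ⟨k, h1, h2, h3, ha, hb⟩
    · rw [ha, hb] at h4; exact absurd rfl h4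
  · rintro (⟨k, h1, h2, h3, h4, h5⟩ | ⟨k, h1, h2, h3, h4, h5⟩)
    · exact ⟨k, h1, h2, h3, by rw [h4, h5]; decide⟩
    · exact ⟨k, h1, h2, h3, by rw [h4, h5]; decide⟩

theorem tip_ex {U : Finset Fc} {ω : Fc → Bool} {v : Vx} {k k' : Fin 3} (h : tipV U ω v k)
    (h' : exV U ω v k') : False := by
  have : k = k' := k_unique h.1 h'.2.1 h'.2.2.1
  subst this
  have h1 := h.2.2.2.1
  rw [h'.2.2.2.1] at h1
  exact absurd h1 (by decide)

/-- local balance of the white boundary edges -/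
theorem bal_bool : ∀ p0 p1 p2 q0 q1 q2 : Bool,
    (((if p2 = true ∧ ¬ p1 = true ∧ q1 = false then (1 : ℤ) else 0) +
      (if p0 = true ∧ ¬ p2 = true ∧ q2 = false then 1 else 0)) +
      (if p1 = true ∧ ¬ p0 = true ∧ q0 = false then 1 else 0)) -
    (((if p1 = true ∧ ¬ p2 = true ∧ q2 = false then (1 : ℤ) else 0) +
      (if p2 = true ∧ ¬ p0 = true ∧ q0 = false then 1 else 0)) +
      (if p0 = true ∧ ¬ p1 = true ∧ q1 = false then 1 else 0)) =
    (if (p0 = true ∧ ¬ p1 = true ∧ ¬ p2 = true ∧ q1 = true ∧ q2 = false) ∨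
       (p1 = true ∧ ¬ p2 = true ∧ ¬ p0 = true ∧ q2 = true ∧ q0 = false) ∨
       (p2 = true ∧ ¬ p0 = true ∧ ¬ p1 = true ∧ q0 = true ∧ q1 = false) then 1 else 0) -
    (if (p0 = true ∧ ¬ p1 = true ∧ ¬ p2 = true ∧ q1 = false ∧ q2 = true) ∨
       (p1 = true ∧ ¬ p2 = true ∧ ¬ p0 = true ∧ q2 = false ∧ q0 = true) ∨
       (p2 = true ∧ ¬ p0 = true ∧ ¬ p1 = true ∧ q0 = false ∧ q1 = true) then 1 else 0) := by
  decide

theorem exists_fin3 {P : Fin 3 → Prop} : (∃ k, P k) ↔ P 0 ∨ P 1 ∨ P 2 := by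
  constructor
  · rintro ⟨k, h⟩
    fin_cases k
    · exact Or.inl h
    · exact Or.inr (Or.inl h)
    · exact Or.inr (Or.inr h)
  · rintro (h | h | h)
    · exact ⟨0, h⟩
    · exact ⟨1, h⟩
    · exact ⟨2, h⟩

theorem bal (U : Finset Fc) (ω : Fc → Bool) (v : Vx) [DecidablePred (· ∈ U)]
    [Decidable (∃ k, tipV U ω v k)] [Decidable (∃ k, exV U ω v k)] :
    (∑ k : Fin 3, if fc v (k + 2) ∈ U ∧ fc v (k + 1) ∉ U ∧ ω (fc v (k + 1)) = false then
      (1 : ℤ) else 0) -
    (∑ k : Fin 3, if fc v (k + 1) ∈ U ∧ fc v (k + 2) ∉ U ∧ ω (fc v (k + 2)) = false then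
      (1 : ℤ) else 0) =
    (if ∃ k, tipV U ω v k then 1 else 0) - (if ∃ k, exV U ω v k then 1 else 0) := by
  classical
  have h := bal_bool (decide (fc v 0 ∈ U)) (decide (fc v 1 ∈ U)) (decide (fc v 2 ∈ U))
    (ω (fc v 0)) (ω (fc v 1)) (ω (fc v 2))
  simp only [decide_eq_true_eq] at h
  have e1 : (0 : Fin 3) + 1 = 1 := rfl
  have e2 : (0 : Fin 3) + 2 = 2 := rfl
  have e3 : (1 : Fin 3) + 1 = 2 := rfl
  have e4 : (1 : Fin 3) + 2 = 0 := rfl
  have e5 : (2 : Fin 3) + 1 = 0 := rfl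
  have e6 : (2 : Fin 3) + 2 = 1 := rfl
  have t1 : (∃ k, tipV U ω v k) ↔
      (fc v 0 ∈ U ∧ ¬ fc v 1 ∈ U ∧ ¬ fc v 2 ∈ U ∧ ω (fc v 1) = true ∧ ω (fc v 2) = false) ∨
      (fc v 1 ∈ U ∧ ¬ fc v 2 ∈ U ∧ ¬ fc v 0 ∈ U ∧ ω (fc v 2) = true ∧ ω (fc v 0) = false) ∨
      (fc v 2 ∈ U ∧ ¬ fc v 0 ∈ U ∧ ¬ fc v 1 ∈ U ∧ ω (fc v 0) = true ∧ ω (fc v 1) = false) :=
    exists_fin3
  have t2 : (∃ k, exV U ω v k) ↔
      (fc v 0 ∈ U ∧ ¬ fc v 1 ∈ U ∧ ¬ fc v 2 ∈ U ∧ ω (fc v 1) = false ∧ ω (fc v 2) = true) ∨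
      (fc v 1 ∈ U ∧ ¬ fc v 2 ∈ U ∧ ¬ fc v 0 ∈ U ∧ ω (fc v 2) = false ∧ ω (fc v 0) = true) ∨
      (fc v 2 ∈ U ∧ ¬ fc v 0 ∈ U ∧ ¬ fc v 1 ∈ U ∧ ω (fc v 0) = false ∧ ω (fc v 1) = true) :=
    exists_fin3
  rw [Fin.sum_univ_three, Fin.sum_univ_three, e1, e2, e3, e4, e5, e6]
  rw [h]
  congr 1
  · by_cases hc : ∃ k, tipV U ω v k
    · rw [if_pos hc, if_pos (t1.1 hc)]
    · rw [if_neg hc, if_neg (fun h => hc (t1.2 h))]
  · by_cases hc : ∃ k, exV U ω v k
    · rw [if_pos hc, if_pos (t2.1 hc)]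
    · rw [if_neg hc, if_neg (fun h => hc (t2.2 h))]

/-- as many tips as exits -/
theorem card_tip_ex (U : Finset Fc) (ω : Fc → Bool) [DecidablePred fun v => ∃ k, tipV U ω v k]
    [DecidablePred fun v => ∃ k, exV U ω v k] :
    ((verts U).filter (fun v => ∃ k, tipV U ω v k)).card =
      ((verts U).filter (fun v => ∃ k, exV U ω v k)).card := by
  classical
  have hAB : ((verts U ×ˢ (Finset.univ : Finset (Fin 3))).filter (fun p =>
      fc p.1 (p.2 + 2) ∈ U ∧ fc p.1 (p.2 + 1) ∉ U ∧ ω (fc p.1 (p.2 + 1)) = false)).card =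
      ((verts U ×ˢ (Finset.univ : Finset (Fin 3))).filter (fun p =>
      fc p.1 (p.2 + 1) ∈ U ∧ fc p.1 (p.2 + 2) ∉ U ∧ ω (fc p.1 (p.2 + 2)) = false)).card := by
    refine Finset.card_nbij' (fun p => (nb p.1 p.2, p.2)) (fun p => (nb p.1 p.2, p.2)) ?_ ?_ ?_ ?_
    · intro p hp
      rw [Finset.mem_coe, Finset.mem_filter] at hp ⊢
      obtain ⟨h1, h2, h3, h4⟩ := hp
      refine ⟨Finset.mem_product.2 ⟨mem_verts.2 ?_, Finset.mem_univ _⟩, ?_⟩
      · exact ⟨p.2 + 1, by show fc (nb p.1 p.2) (p.2 + 1) ∈ U; rw [fc_nb1]; exact h2⟩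
      · show fc (nb p.1 p.2) (p.2 + 1) ∈ U ∧ fc (nb p.1 p.2) (p.2 + 2) ∉ U ∧
          ω (fc (nb p.1 p.2) (p.2 + 2)) = false
        rw [fc_nb1, fc_nb2]
        exact ⟨h2, h3, h4⟩
    · intro p hp
      rw [Finset.mem_coe, Finset.mem_filter] at hp ⊢
      obtain ⟨h1, h2, h3, h4⟩ := hp
      refine ⟨Finset.mem_product.2 ⟨mem_verts.2 ?_, Finset.mem_univ _⟩, ?_⟩
      · exact ⟨p.2 + 2, by show fc (nb p.1 p.2) (p.2 + 2) ∈ U; rw [fc_nb2]; exact h2⟩
      · show fc (nb p.1 p.2) (p.2 + 2) ∈ U ∧ fc (nb p.1 p.2) (p.2 + 1) ∉ U ∧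
          ω (fc (nb p.1 p.2) (p.2 + 1)) = false
        rw [fc_nb1, fc_nb2]
        exact ⟨h2, h3, h4⟩
    · intro p _
      simp only [nb_nb]
    · intro p _
      simp only [nb_nb]
  have key : ∑ v ∈ verts U, ((∑ k : Fin 3, if fc v (k + 2) ∈ U ∧ fc v (k + 1) ∉ U ∧
      ω (fc v (k + 1)) = false then (1 : ℤ) else 0) -
      (∑ k : Fin 3, if fc v (k + 1) ∈ U ∧ fc v (k + 2) ∉ U ∧ ω (fc v (k + 2)) = false then
      (1 : ℤ) else 0)) = 0 := by
    rw [Finset.sum_sub_distrib, ← Finset.sum_product', ← Finset.sum_product', sub_eq_zero]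
    rw [Finset.card_filter, Finset.card_filter] at hAB
    have h2 := congrArg (fun n : ℕ => (n : ℤ)) hAB
    simp only [Nat.cast_sum, Nat.cast_ite, Nat.cast_one, Nat.cast_zero] at h2
    exact h2
  rw [Finset.sum_congr rfl (fun v _ => bal U ω v), Finset.sum_sub_distrib, sub_eq_zero] at key
  rw [Finset.card_filter, Finset.card_filter]
  have h3 : ((∑ v ∈ verts U, if ∃ k, tipV U ω v k then 1 else 0 : ℕ) : ℤ) =
      ((∑ v ∈ verts U, if ∃ k, exV U ω v k then 1 else 0 : ℕ) : ℤ) := by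
    simp only [Nat.cast_sum, Nat.cast_ite, Nat.cast_one, Nat.cast_zero]
    exact key
  exact_mod_cast h3

theorem exists_tip_ex (U : Finset Fc) (ω : Fc → Bool) :
    (∃ v k, tipV U ω v k) ↔ ∃ v k, exV U ω v k := by
  classical
  have h := card_tip_ex U ω
  constructor
  · rintro ⟨v, k, hv⟩
    have h1 : 0 < ((verts U).filter (fun v => ∃ k, tipV U ω v k)).card :=
      Finset.card_pos.2 ⟨v, Finset.mem_filter.2 ⟨mem_verts.2 ⟨k, hv.1⟩, k, hv⟩⟩
    rw [h] at h1
    obtain ⟨w, hw⟩ := Finset.card_pos.1 h1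
    exact ⟨w, (Finset.mem_filter.1 hw).2⟩
  · rintro ⟨v, k, hv⟩
    have h1 : 0 < ((verts U).filter (fun v => ∃ k, exV U ω v k)).card :=
      Finset.card_pos.2 ⟨v, Finset.mem_filter.2 ⟨mem_verts.2 ⟨k, hv.1⟩, k, hv⟩⟩
    rw [← h] at h1
    obtain ⟨w, hw⟩ := Finset.card_pos.1 h1
    exact ⟨w, (Finset.mem_filter.1 hw).2⟩

theorem cF_ed {U : Finset Fc} {ω : Fc → Bool} {d : Bool} {v : Vx} {k : Fin 3} (h0 : fc v k ∈ U)
    (h2 : fc v (k + 2) ∉ U) : ed v (k + 1) ∈ cF U ω d ↔ ω (fc v (k + 2)) = d := by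
  have e1 : ∀ k : Fin 3, k + 1 + 1 = k + 2 := by decide
  have e2 : ∀ k : Fin 3, k + 1 + 2 = k := by decide
  rw [mem_cF]
  rcases ed_faces v (k + 1) with ⟨h3, h4⟩ | ⟨h3, h4⟩
  · rw [h3, h4, e1, e2]
    constructor
    · rintro (h | h)
      · exact absurd h.1 h2
      · exact h.2.2
    · exact fun h => Or.inr ⟨h0, h2, h⟩
  · rw [h3, h4, e1, e2]
    constructor
    · rintro (h | h)
      · exact h.2.2
      · exact absurd h.1 h2
    · exact fun h => Or.inl ⟨h0, h2, h⟩

theorem cF_ed2 {U : Finset Fc} {ω : Fc → Bool} {d : Bool} {v : Vx} {k : Fin 3} (h0 : fc v k ∈ U)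
    (h2 : fc v (k + 1) ∉ U) : ed v (k + 2) ∈ cF U ω d ↔ ω (fc v (k + 1)) = d := by
  have e1 : ∀ k : Fin 3, k + 2 + 1 = k := by decide
  have e2 : ∀ k : Fin 3, k + 2 + 2 = k + 1 := by decide
  rw [mem_cF]
  rcases ed_faces v (k + 2) with ⟨h3, h4⟩ | ⟨h3, h4⟩
  · rw [h3, h4, e1, e2]
    constructor
    · rintro (h | h)
      · exact h.2.2
      · exact absurd h.1 h2
    · exact fun h => Or.inl ⟨h0, h2, h⟩
  · rw [h3, h4, e1, e2]
    constructor
    · rintro (h | h)
      · exact absurd h.1 h2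
      · exact h.2.2
    · exact fun h => Or.inr ⟨h0, h2, h⟩

theorem ect : ECT := by
  classical
  intro U ω hU
  by_cases hex : ∃ v k, tipV U ω v k
  · left
    obtain ⟨w, l, hw⟩ := (exists_tip_ex U ω).1 hex
    obtain ⟨v, k, hv⟩ := hex
    have hvw : v ≠ w := by
      rintro rfl
      exact tip_ex hv hw
    have hcv : chg U ω v := chg_cases.2 (Or.inl ⟨k, hv⟩)
    have hcw : chg U ω w := chg_cases.2 (Or.inr ⟨l, hw⟩)
    have hchg : ∀ x, chg U ω x ↔ x = v ∨ x = w := by
      intro x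
      constructor
      · intro hx
        rcases hU.two v w x hcv hcw hx with h | h | h
        · exact absurd h hvw
        · exact Or.inl h.symm
        · exact Or.inr h.symm
      · rintro (rfl | rfl)
        · exact hcv
        · exact hcw
    have hdv : ∀ d x, dv (ind (↑(cF U ω d) : Set Ed)) x =
        ind ({v} : Set Vx) x + ind ({w} : Set Vx) x := by
      intro d x
      have h1 : dv (ind (↑(cF U ω d) : Set Ed)) x = dv (cd U ω d) x := by
        unfold dv
        rw [ind_cF, ind_cF, ind_cF]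
      rw [h1, cd_dv]
      by_cases h2 : x = v
      · have i1 : ind ({v} : Set Vx) x = 1 := ind_mem (by simpa using h2)
        have i2 : ind ({w} : Set Vx) x = 0 := ind_not (by rw [h2]; simpa using hvw)
        rw [if_pos ((hchg x).2 (Or.inl h2)), i1, i2, add_zero]
      · have i1 : ind ({v} : Set Vx) x = 0 := ind_not (by simpa using h2)
        by_cases h3 : x = w
        · have i2 : ind ({w} : Set Vx) x = 1 := ind_mem (by simpa using h3)
          rw [if_pos ((hchg x).2 (Or.inr h3)), i1, i2, zero_add]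
        · have i2 : ind ({w} : Set Vx) x = 0 := ind_not (by simpa using h3)
          rw [if_neg (fun h => ((hchg x).1 h).elim h2 h3), i1, i2, add_zero]
    let M : Marks U 2 :=
      { u := ![v, w]
        C := ![cF U ω false, cF U ω true]
        out := by
          intro j
          fin_cases j
          · exact ⟨k, hv.1, hv.2.1, hv.2.2.1, (cF_ed hv.1 hv.2.2.1).2 hv.2.2.2.2⟩
          · exact ⟨l, hw.1, hw.2.1, hw.2.2.1, (cF_ed hw.1 hw.2.2.1).2 hw.2.2.2.2⟩
        mem := by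
          intro e
          rw [isB_cF (ω := ω)]
          constructor
          · rintro (h | h)
            · exact ⟨0, h⟩
            · exact ⟨1, h⟩
          · rintro ⟨j, hj⟩
            fin_cases j
            · exact Or.inl hj
            · exact Or.inr hj
        disj := by
          have h01 : Disjoint (cF U ω false) (cF U ω true) := by
            rw [Finset.disjoint_left]
            intro e h1 h2
            rw [mem_cF] at h1 h2
            rcases h1 with h1 | h1 <;> rcases h2 with h2 | h2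
            · rw [h1.2.2] at h2; exact absurd h2.2.2 (by decide)
            · exact h1.2.1 h2.1
            · exact h1.2.1 h2.1
            · rw [h1.2.2] at h2; exact absurd h2.2.2 (by decide)
          intro j l hjl
          fin_cases j <;> fin_cases l
          · exact absurd rfl hjl
          · exact h01
          · exact h01.symm
          · exact absurd rfl hjl
        dvC := by
          intro j x
          fin_cases j
          · exact hdv false x
          · have := hdv true x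
            rw [add_comm] at this
            exact this
        inj := by
          intro a b hab
          fin_cases a <;> fin_cases b
          · rfl
          · exact absurd hab hvw
          · exact absurd hab hvw.symm
          · rfl }
    refine ⟨M, (v, k), (nb w l, l), hv, exit_of hw, rfl, nb_nb w l, ?_, ?_, ?_⟩
    · intro p' hp'
      have h1 : tipV U ω p'.1 p'.2 := hp'
      have h2 : p'.1 = v := by
        rcases (hchg p'.1).1 (chg_cases.2 (Or.inl ⟨_, h1⟩)) with h | h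
        · exact h
        · rw [h] at h1
          exact absurd (tip_ex h1 hw) id
      rw [h2] at h1
      have h3 : p'.2 = k := k_unique h1.1 hv.2.1 hv.2.2.1
      exact Prod.ext h2 h3
    · intro q' hq'
      have h1 : exV U ω (nb q'.1 q'.2) q'.2 := (isExit_iff U ω q').1 hq'
      have h2 : nb q'.1 q'.2 = w := by
        rcases (hchg _).1 (chg_cases.2 (Or.inr ⟨_, h1⟩)) with h | h
        · rw [h] at h1
          exact absurd (tip_ex hv h1) id
        · exact h
      rw [h2] at h1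
      have h3 : q'.2 = l := k_unique h1.1 hw.2.1 hw.2.2.1
      refine Prod.ext ?_ h3
      show q'.1 = nb w l
      rw [← h2, ← h3, nb_nb]
    · intro e he f hf hfU
      exact cF_outer he hf hfU
  · right
    refine ⟨?_, ?_⟩
    · intro p hp
      exact hex ⟨p.1, p.2, hp⟩
    · intro q hq
      exact hex ((exists_tip_ex U ω).2 ⟨_, _, (isExit_iff U ω q).1 hq⟩)

/-- changing the colour of an inner face -/
theorem st_update {U : Finset Fc} {ω : Fc → Bool} (hU : St U ω) {h : Fc} (hh : h ∈ U) (c : Bool) :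
    St U (Function.update ω h c) := by
  classical
  have hup : ∀ f, f ∉ U → Function.update ω h c f = ω f := by
    intro f hf
    rw [Function.update_of_ne]
    rintro rfl
    exact hf hh
  have hchg : ∀ v, chg U (Function.update ω h c) v → chg U ω v := by
    rintro v ⟨k, h1, h2, h3, h4⟩
    refine ⟨k, h1, h2, h3, ?_⟩
    rwa [hup _ h2, hup _ h3] at h4
  refine ⟨hU.dom, ?_, ?_⟩
  · intro x y z' hx hy hz'
    exact hU.two x y z' (hchg x hx) (hchg y hy) (hchg z' hz')
  · intro f g hf hg h1 h2 h3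
    rw [hup f hf, hup g hg] at h3
    refine Jn.mono ?_ (hU.cc f g hf hg h1 h2 h3)
    rintro x ⟨hx1, hx2⟩
    exact ⟨hx1, by rw [hup x hx1, hup f hf]; exact hx2⟩

theorem ecs : ECS := by
  classical
  intro U ω z p q hU hz hp hq hpz
  set h := ph p with hh
  have hhU : h ∈ U := hp.1
  have hplU : pl p ∉ U := hp.2.1
  have hprU : pr p ∉ U := hp.2.2.1
  have hpl : ω (pl p) = true := hp.2.2.2.1
  have hpr : ω (pr p) = false := hp.2.2.2.2
  have hne1 : pl p ≠ h := fun e => hplU (e ▸ hhU)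
  have hne2 : pr p ≠ h := fun e => hprU (e ▸ hhU)
  refine ⟨?_, ?_⟩
  · intro c
    have hst := st_update hU hhU c
    cases c
    · refine peel U _ hst h hhU (pr p) hprU (adj_hr p) ?_ z hz (Ne.symm hpz)
      rw [Function.update_self, Function.update_of_ne hne2, hpr]
    · refine peel U _ hst h hhU (pl p) hplU (adj_hl p) ?_ z hz (Ne.symm hpz)
      rw [Function.update_self, Function.update_of_ne hne1, hpl]
  · intro hbq s hs c
    set U' := comp (U \ {h}) z with hU'
    have hU'U : ∀ f ∈ U', f ∈ U ∧ f ≠ h := by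
      intro f hf
      have := Finset.mem_sdiff.1 (comp_sub _ _ hf)
      exact ⟨this.1, fun e => this.2 (Finset.mem_singleton.2 e)⟩
    rcases ect U ω hU with ⟨M, p1, q1, hp1, hq1, hpM, hqM, hup, huq, hC⟩ | ⟨h1, _⟩
    · have ep : p = p1 := hup p hp
      have eq' : q = q1 := huq q hq
      have hM0 : M.u 0 = p.1 := by rw [ep]; exact hpM.symm
      have hM1 : M.u 1 = nb q.1 q.2 := by rw [eq']; exact hqM.symm
      have hk : ∃ k, fc (M.u 1) k ∈ U' := ⟨q.2, by rw [hM1]; exact hbq⟩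
      obtain ⟨M', hu', hC'⟩ := hs M hM0 hk c
      have hu0 : M'.u 0 = s c := by rw [hu' 0, if_pos rfl]
      have hu1 : M'.u 1 = nb q.1 q.2 := by
        rw [hu' 1, if_neg (by decide)]
        exact hM1
      -- outer faces of `U'`
      have hout : ∀ f g, g ∈ U' → f ∉ U' → adjF g f → f = h ∨ f ∉ U := by
        intro f g hg hf hgf
        by_contra hcon
        push Not at hcon
        exact hf (comp_adj hg (Finset.mem_sdiff.2 ⟨hcon.2, fun e => hcon.1
          (Finset.mem_singleton.1 e)⟩) hgf)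
      -- the white arc of the new marks
      have hW : ∀ e f, isB U' e → (f = lf e ∨ f = rf e) → f ∉ U' →
          (e ∈ M'.C 0 ↔ Function.update ω h c f = false) := by
        intro e f he hf hfU'
        obtain ⟨g, hg, hgU', hfg⟩ : ∃ g, ((lf e = f ∧ rf e = g) ∨ (lf e = g ∧ rf e = f)) ∧ g ∈ U' ∧
            adjF g f := by
          rcases he with ⟨h1, h2⟩ | ⟨h1, h2⟩
          · rcases hf with hf | hf
            · exact absurd (hf ▸ h1) hfU'
            · exact ⟨lf e, Or.inr ⟨rfl, hf.symm⟩, h1, by rw [hf]; exact adjF_lr e⟩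
          · rcases hf with hf | hf
            · exact ⟨rf e, Or.inl ⟨hf.symm, rfl⟩, h2, by rw [hf]; exact adjF_symm (adjF_lr e)⟩
            · exact absurd (hf ▸ h2) hfU'
        have hgU := (hU'U g hgU').1
        rw [hC' 0 e]
        by_cases hfh : f = h
        · rw [hfh, Function.update_self]
          have hnB : ¬ isB U e := by
            rintro (⟨h1, h2⟩ | ⟨h1, h2⟩)
            · rcases hg with ⟨h3, h4⟩ | ⟨h3, h4⟩
              · exact h2 (h4 ▸ hgU)
              · exact h2 (by rw [h4, hfh]; exact hhU)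
            · rcases hg with ⟨h3, h4⟩ | ⟨h3, h4⟩
              · exact h1 (by rw [h3, hfh]; exact hhU)
              · exact h1 (h3 ▸ hgU)
          have hnew : newE U' h e := by
            rcases hg with ⟨h3, h4⟩ | ⟨h3, h4⟩
            · exact Or.inl ⟨by rw [h3, hfh], by rw [h4]; exact hgU'⟩
            · exact Or.inr ⟨by rw [h3]; exact hgU', by rw [h4, hfh]⟩
          constructor
          · rintro (h1 | h1)
            · exact absurd ((M.mem e).2 ⟨0, h1.1⟩) hnB
            · rcases h1.2 with h2 | h2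
              · exact h2.2
              · exact absurd h2.1 (by decide)
          · intro h1
            exact Or.inr ⟨hnew, Or.inl ⟨rfl, h1⟩⟩
        · have hfU : f ∉ U := (hout f g hgU' hfU' hfg).resolve_left hfh
          rw [Function.update_of_ne hfh]
          have hB : isB U e := by
            rcases hg with ⟨h3, h4⟩ | ⟨h3, h4⟩
            · exact Or.inr ⟨by rw [h3]; exact hfU, by rw [h4]; exact hgU⟩
            · exact Or.inl ⟨by rw [h3]; exact hgU, by rw [h4]; exact hfU⟩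
          have hnn : ¬ newE U' h e := by
            have hgh := (hU'U g hgU').2
            rintro (⟨h1, h2⟩ | ⟨h1, h2⟩)
            · rcases hg with ⟨h3, h4⟩ | ⟨h3, h4⟩
              · exact hfh (h3.symm.trans h1)
              · exact hgh (h3.symm.trans h1)
            · rcases hg with ⟨h3, h4⟩ | ⟨h3, h4⟩
              · exact hgh (h4.symm.trans h2)
              · exact hfh (h4.symm.trans h2)
          rw [← hC e hB f hf hfU]
          constructor
          · rintro (h1 | h1)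
            · exact h1.1
            · exact absurd h1.1 hnn
          · intro h1
            exact Or.inl ⟨h1, he⟩
      -- edges at a vertex with one face in `U'`
      have loc : ∀ v k, fc v k ∈ U' → fc v (k + 1) ∉ U' → fc v (k + 2) ∉ U' →
          (ed v (k + 1) ∈ M'.C 0 ↔ Function.update ω h c (fc v (k + 2)) = false) ∧
          (ed v (k + 2) ∈ M'.C 0 ↔ Function.update ω h c (fc v (k + 1)) = false) ∧
          (∀ j, ed v k ∉ M'.C j) ∧ isB U' (ed v (k + 1)) ∧ isB U' (ed v (k + 2)) := by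
        intro v k h0 h1 h2
        have e1 : ∀ k : Fin 3, k + 1 + 1 = k + 2 := by decide
        have e2 : ∀ k : Fin 3, k + 1 + 2 = k := by decide
        have e3 : ∀ k : Fin 3, k + 2 + 1 = k := by decide
        have e4 : ∀ k : Fin 3, k + 2 + 2 = k + 1 := by decide
        have a1 := ed_faces v (k + 1)
        have a2 := ed_faces v (k + 2)
        have a0 := ed_faces v k
        rw [e1, e2] at a1
        rw [e3, e4] at a2
        have b1 : isB U' (ed v (k + 1)) := by
          rcases a1 with ⟨h3, h4⟩ | ⟨h3, h4⟩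
          · exact Or.inr ⟨by rw [h3]; exact h2, by rw [h4]; exact h0⟩
          · exact Or.inl ⟨by rw [h3]; exact h0, by rw [h4]; exact h2⟩
        have b2 : isB U' (ed v (k + 2)) := by
          rcases a2 with ⟨h3, h4⟩ | ⟨h3, h4⟩
          · exact Or.inl ⟨by rw [h3]; exact h0, by rw [h4]; exact h1⟩
          · exact Or.inr ⟨by rw [h3]; exact h1, by rw [h4]; exact h0⟩
        refine ⟨hW _ _ b1 ?_ h2, hW _ _ b2 ?_ h1, ?_, b1, b2⟩
        · rcases a1 with ⟨h3, h4⟩ | ⟨h3, h4⟩
          · exact Or.inl h3.symm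
          · exact Or.inr h4.symm
        · rcases a2 with ⟨h3, h4⟩ | ⟨h3, h4⟩
          · exact Or.inr h4.symm
          · exact Or.inl h3.symm
        · intro j hj
          have hb := (M'.mem _).2 ⟨j, hj⟩
          rcases a0 with ⟨h3, h4⟩ | ⟨h3, h4⟩
          · rcases hb with ⟨h5, h6⟩ | ⟨h5, h6⟩
            · exact h1 (h3 ▸ h5)
            · exact h2 (h4 ▸ h6)
          · rcases hb with ⟨h5, h6⟩ | ⟨h5, h6⟩
            · exact h2 (h3 ▸ h5)
            · exact h1 (h4 ▸ h6)
      -- degree one at a mark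
      have deg1 : ∀ (v : Vx) (k : Fin 3) (j : Fin 2), (∀ j, ed v k ∉ M'.C j) →
          dv (ind (↑(M'.C j) : Set Ed)) v = 1 → ed v (k + 1) ∈ M'.C j → ed v (k + 2) ∉ M'.C j := by
        intro v k j h0 h1 h2 h3
        have hsum : dv (ind (↑(M'.C j) : Set Ed)) v = ind (↑(M'.C j) : Set Ed) (ed v k) +
            ind (↑(M'.C j) : Set Ed) (ed v (k + 1)) + ind (↑(M'.C j) : Set Ed) (ed v (k + 2)) := by
          unfold dv
          fin_cases k
          · rfl
          · show _ = ind (↑(M'.C j) : Set Ed) (ed v 1) + ind (↑(M'.C j) : Set Ed) (ed v 2) +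
              ind (↑(M'.C j) : Set Ed) (ed v 0)
            ring
          · show _ = ind (↑(M'.C j) : Set Ed) (ed v 2) + ind (↑(M'.C j) : Set Ed) (ed v 0) +
              ind (↑(M'.C j) : Set Ed) (ed v 1)
            ring
        rw [hsum, ind_not (by exact_mod_cast h0 j), ind_mem (by exact_mod_cast h2),
          ind_mem (by exact_mod_cast h3)] at h1
        exact absurd h1 (by decide)
      have h01 : M'.u 0 ≠ M'.u 1 := fun e => absurd (M'.inj e) (by decide)
      have d0 : dv (ind (↑(M'.C 0) : Set Ed)) (M'.u 0) = 1 := by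
        rw [M'.dvC 0, ind_mem (by simp)]
        rw [ind_not (by simpa using h01), add_zero]
      have d1 : dv (ind (↑(M'.C 1) : Set Ed)) (M'.u 1) = 1 := by
        rw [M'.dvC 1, ind_mem (by simp)]
        have : (1 : Fin 2) + 1 = 0 := rfl
        rw [this, ind_not (by simpa using h01.symm), add_zero]
      obtain ⟨k, hk0, hk1, hk2, hk3⟩ := M'.out 0
      obtain ⟨l, hl0, hl1, hl2, hl3⟩ := M'.out 1
      obtain ⟨x1, x2, x3, x4, x5⟩ := loc _ k hk0 hk1 hk2
      obtain ⟨y1, y2, y3, y4, y5⟩ := loc _ l hl0 hl1 hl2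
      have htip : tipV U' (Function.update ω h c) (M'.u 0) k := by
        refine ⟨hk0, hk1, hk2, ?_, x1.1 hk3⟩
        have := deg1 _ k 0 x3 d0 hk3
        rw [x2] at this
        simpa using this
      have hex : exV U' (Function.update ω h c) (M'.u 1) l := by
        have hn0 : ed (M'.u 1) (l + 1) ∉ M'.C 0 := fun hmem =>
          Finset.disjoint_left.1 (M'.disj 0 1 (by decide)) hmem hl3
        refine ⟨hl0, hl1, hl2, ?_, ?_⟩
        · have hnn := deg1 _ l 1 y3 d1 hl3
          obtain ⟨j, hj⟩ := (M'.mem _).1 y5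
          have : j = 0 := by
            fin_cases j
            · rfl
            · exact absurd hj hnn
          rw [this] at hj
          exact y2.1 hj
        · rw [y1] at hn0
          simpa using hn0
      refine ⟨(M'.u 0, k), (nb (M'.u 1) l, l), htip, hu0, exit_of hex, ?_⟩
      show nb (nb (M'.u 1) l) l = nb q.1 q.2
      rw [nb_nb, hu1]
    · exact absurd hp (h1 p)

end Pool.Agent.H93.SM
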